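import Pool.Agent.helper88.RQ2.Spec

set_option autoImplicit false

open Set Matroid RadonMin

namespace RadonQ2

/-- the triples of `IsA44` -/
def VY_T1 : Finset (Finset (Fin 7)) :=
  {{0, 1, 2}, {0, 1, 3}, {0, 2, 3}, {1, 2, 3}, {0, 4, 5}, {0, 4, 6}, {0, 5, 6}, {4, 5, 6}}

/-- the triples of `IsA4333` -/
def VY_T2 : Finset (Finset (Fin 7)) :=
  {{0, 1, 2}, {0, 1, 3}, {0, 2, 3}, {1, 2, 3}, {0, 5, 6}, {1, 4, 6}, {2, 4, 5}}

theorem VY_grow1 : ∀ t ∈ Finset.powersetCard 3 (Finset.univ : Finset (Fin 7)),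
    t ∈ VY_T1 ∨ (grow VY_T1)^[7] t = Finset.univ := by
  decide +kernel

theorem VY_grow2 : ∀ t ∈ Finset.powersetCard 3 (Finset.univ : Finset (Fin 7)),
    t ∈ VY_T2 ∨ (grow VY_T2)^[7] t = Finset.univ := by
  decide +kernel

theorem VY_gen1 : (grow VY_T1)^[7] ({0, 1, 4} : Finset (Fin 7)) = Finset.univ := by
  decide +kernel

theorem VY_gen2 : (grow VY_T2)^[7] ({0, 1, 5} : Finset (Fin 7)) = Finset.univ := by
  decide +kernel

theorem VY_count1 : VY_T1.card + ((Finset.powersetCard 4 (Finset.univ : Finset (Fin 7))).filter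
      (fun u => ∀ t ∈ VY_T1, ¬ t ⊆ u)).card ≤ 17 := by
  decide +kernel

theorem VY_count2 : VY_T2.card + ((Finset.powersetCard 4 (Finset.univ : Finset (Fin 7))).filter
      (fun u => ∀ t ∈ VY_T2, ¬ t ⊆ u)).card ≤ 17 := by
  decide +kernel

theorem VY_T1_sub : ∀ t ∈ VY_T1, t.card = 3 ∧ (t ⊆ {0, 1, 2, 3} ∨ t ⊆ {0, 4, 5, 6}) := by
  decide +kernel

theorem VY_T2_sub : ∀ t ∈ VY_T2, t.card = 3 ∧ (t ⊆ {0, 1, 2, 3} ∨ t ⊆ {5, 6, 0} ∨ t ⊆ {4, 6, 1} ∨ t ⊆ {4, 5, 2}) := by
  decide +kernel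

theorem VY_image {V : Type} [DecidableEq V] (X : Finset V) (v : Fin 7 → V) (hc : X.card = 7)
    (h : (X : Set V) = Set.range v) : (Finset.univ : Finset (Fin 7)).image v = X ∧ Function.Injective v := by
  have h1 : (Finset.univ : Finset (Fin 7)).image v = X := by
    apply Finset.coe_injective
    rw [h]
    simp
  refine ⟨h1, ?_⟩
  have h2 : ((Finset.univ : Finset (Fin 7)).image v).card = (Finset.univ : Finset (Fin 7)).card := by
    rw [h1, hc]
    rfl
  have h3 := Finset.card_image_iff.mp h2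
  intro i j hij
  exact h3 (by simp) (by simp) hij

theorem VY_main (hVT : VT_stmt) (V : Type) [AddCommGroup V] [Module ℝ V] [DecidableEq V]
    (X : Finset V) (v : Fin 7 → V) (hc : X.card = 7) (h : (X : Set V) = Set.range v)
    (T : Finset (Finset (Fin 7))) (A : Finset (Fin 7)) (hA : A.card = 3)
    (hT : ∀ t ∈ T, t.card = 3 ∧ Collinear ℝ ((t.image v : Finset V) : Set V))
    (hgen : (grow T)^[7] A = Finset.univ)
    (hgrow : ∀ t ∈ Finset.powersetCard 3 (Finset.univ : Finset (Fin 7)), t ∈ T ∨ (grow T)^[7] t = Finset.univ)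
    (hcount : T.card + ((Finset.powersetCard 4 (Finset.univ : Finset (Fin 7))).filter
      (fun u => ∀ t ∈ T, ¬ t ⊆ u)).card ≤ 17)
    (hn : ¬ Collinear ℝ (X : Set V)) : ra X = 3 ∧ ci X ≤ 17 := by
  obtain ⟨h1, h2⟩ := VY_image X v hc h
  have h3 := hVT V 7 v h2 T ∅ hT (by simp) ⟨A, hA, hgen⟩ (by rw [h1]; exact hn) (by
    intro t ht
    rcases hgrow t (Finset.mem_powersetCard.mpr ⟨Finset.subset_univ _, ht⟩) with h4 | h4
    · exact Or.inl h4
    · exact Or.inr (Or.inr h4))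
  rw [h1] at h3
  exact ⟨h3.1, h3.2.trans hcount⟩

theorem VY_col {V : Type} [AddCommGroup V] [Module ℝ V] [DecidableEq V] (v : Fin 7 → V)
    (t s : Finset (Fin 7)) (S : Set V) (hts : t ⊆ s) (hS : ∀ i ∈ s, v i ∈ S) (hcol : Collinear ℝ S) :
    Collinear ℝ ((t.image v : Finset V) : Set V) := by
  refine hcol.subset ?_
  intro y hy
  obtain ⟨i, hi, rfl⟩ := Finset.mem_image.mp (Finset.mem_coe.mp hy)
  exact hS i (hts hi)

theorem VY_range {V : Type} (a0 a1 a2 a3 a4 a5 a6 : V) :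
    Set.range (![a0, a1, a2, a3, a4, a5, a6] : Fin 7 → V) = {a0, a1, a2, a3, a4, a5, a6} := by
  ext y
  simp only [Set.mem_range, Set.mem_insert_iff, Set.mem_singleton_iff, Fin.exists_fin_succ]
  constructor
  · rintro h
    simp at h
    tauto
  · intro h
    simp
    tauto

theorem VY_proof (hVT : VT_stmt) : VY_stmt := by
  intro V _ _ _ X
  constructor
  · rintro ⟨p, a, b, c, x, y, z, hc, hX, hl1, hl2, hn⟩
    refine VY_main hVT V X ![p, a, b, c, x, y, z] hc (by rw [VY_range, hX]) VY_T1 {0, 1, 4} (by decide) ?_ VY_gen1 VY_grow1 VY_count1 hn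
    intro t ht
    obtain ⟨h1, h2⟩ := VY_T1_sub t ht
    refine ⟨h1, ?_⟩
    rcases h2 with h2 | h2
    · refine VY_col _ t _ _ h2 ?_ hl1
      intro i hi
      simp only [Finset.mem_insert, Finset.mem_singleton] at hi
      rcases hi with rfl | rfl | rfl | rfl <;> simp
    · refine VY_col _ t _ _ h2 ?_ hl2
      intro i hi
      simp only [Finset.mem_insert, Finset.mem_singleton] at hi
      rcases hi with rfl | rfl | rfl | rfl <;> simp
  · rintro ⟨p, q, r, w, x, y, z, hc, hX, hl, h1, h2, h3, hn⟩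
    refine VY_main hVT V X ![p, q, r, w, x, y, z] hc (by rw [VY_range, hX]) VY_T2 {0, 1, 5} (by decide) ?_ VY_gen2 VY_grow2 VY_count2 hn
    intro t ht
    obtain ⟨h4, h5⟩ := VY_T2_sub t ht
    refine ⟨h4, ?_⟩
    rcases h5 with h5 | h5 | h5 | h5
    · refine VY_col _ t _ _ h5 ?_ hl
      intro i hi
      simp only [Finset.mem_insert, Finset.mem_singleton] at hi
      rcases hi with rfl | rfl | rfl | rfl <;> simp
    · refine VY_col _ t _ _ h5 ?_ h1
      intro i hi
      simp only [Finset.mem_insert, Finset.mem_singleton] at hi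
      rcases hi with rfl | rfl | rfl <;> simp
    · refine VY_col _ t _ _ h5 ?_ h2
      intro i hi
      simp only [Finset.mem_insert, Finset.mem_singleton] at hi
      rcases hi with rfl | rfl | rfl <;> simp
    · refine VY_col _ t _ _ h5 ?_ h3
      intro i hi
      simp only [Finset.mem_insert, Finset.mem_singleton] at hi
      rcases hi with rfl | rfl | rfl <;> simp

end RadonQ2
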